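import Pool.Agent.Helper7.BM.Goals2

set_option autoImplicit false

namespace Pool.Agent.Helper12.BM

open Pool.Agent.Helper7.BM

theorem bd : StmtBD := by
  intro n k
  induction k generalizing n with
  | zero =>
    intro _
    exact ⟨∅, rfl, fun l hl => absurd hl (Finset.notMem_empty l)⟩
  | succ k ih =>
    intro hn
    obtain ⟨p, hp, h1, h2⟩ := Nat.exists_prime_lt_and_le_two_mul n (by omega)
    obtain ⟨LL, hc, hLL⟩ := ih p hp.one_lt.le
    have hnot : p ∉ LL := fun h => lt_irrefl p (hLL p h).2.1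
    refine ⟨insert p LL, by rw [Finset.card_insert_of_notMem hnot, hc], ?_⟩
    have h3 : 2 ^ k * p ≤ 2 ^ (k + 1) * n := by
      calc 2 ^ k * p ≤ 2 ^ k * (2 * n) := Nat.mul_le_mul_left _ h2
        _ = 2 ^ (k + 1) * n := by ring
    intro l hl
    rcases Finset.mem_insert.mp hl with rfl | hl
    · refine ⟨hp, h1, le_trans ?_ h3⟩
      exact Nat.le_mul_of_pos_left _ (by positivity)
    · obtain ⟨hlp, h4, h5⟩ := hLL l hl
      exact ⟨hlp, h1.trans h4, h5.trans h3⟩

end Pool.Agent.Helper12.BM
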