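import Pool.Agent.Helper7.BM.Goals2

set_option autoImplicit false

open Finset

namespace Pool.Agent.Helper12.BM

open Pool.Agent.Helper7.BM

theorem exists_notDvd (LL : Finset ℕ) (hp : ∀ l ∈ LL, l.Prime) (N : ℤ) (h0 : N ≠ 0)
    (hN : |N| < ∏ l ∈ LL, (l : ℤ)) : ∃ l ∈ LL, ¬ (l : ℤ) ∣ N := by
  by_contra hcon
  push Not at hcon
  have h1 : ∏ l ∈ LL, l ∣ N.natAbs := by
    apply Finset.prod_primes_dvd
    · intro l hl
      exact (hp l hl).prime
    · intro l hl
      exact Int.natCast_dvd.mp (hcon l hl)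
  have h2 : ∏ l ∈ LL, l ≤ N.natAbs := Nat.le_of_dvd (Int.natAbs_pos.mpr h0) h1
  have h3 : (∏ l ∈ LL, (l : ℤ)) ≤ |N| := by
    rw [Int.abs_eq_natAbs, ← Nat.cast_prod]
    exact Nat.cast_le.mpr h2
  exact absurd hN (not_lt.mpr h3)

/-- the number of pairs of residues -/
theorem card_pairs (f g : Polynomial ℤ) (l n : ℕ) [Fact l.Prime] (hf : f.Monic)
    (hd : f.natDegree = n) (hn : 0 < n) (S : Finset (ZMod l × ZMod l))
    (hS : ∀ s ∈ S, (f.map (Int.castRingHom (ZMod l))).eval s.1 =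
      (g.map (Int.castRingHom (ZMod l))).eval s.2) : S.card ≤ n * l := by
  classical
  set F := f.map (Int.castRingHom (ZMod l)) with hF
  set G := g.map (Int.castRingHom (ZMod l)) with hG
  have hFd : F.natDegree = n := by rw [hF, hf.natDegree_map, hd]
  have hsub : S ⊆ (univ : Finset (ZMod l)).biUnion
      (fun b => ((F - Polynomial.C (G.eval b)).roots.toFinset).image (fun a => (a, b))) := by
    intro s hs
    rw [Finset.mem_biUnion]
    refine ⟨s.2, Finset.mem_univ _, Finset.mem_image.mpr ⟨s.1, ?_, rfl⟩⟩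
    rw [Multiset.mem_toFinset, Polynomial.mem_roots']
    refine ⟨?_, ?_⟩
    · intro h0
      have h1 : (F - Polynomial.C (G.eval s.2)).natDegree = n := by
        rw [Polynomial.natDegree_sub_C, hFd]
      rw [h0, Polynomial.natDegree_zero] at h1
      omega
    · rw [Polynomial.IsRoot.def, Polynomial.eval_sub, Polynomial.eval_C, hS s hs, sub_self]
  refine (Finset.card_le_card hsub).trans (Finset.card_biUnion_le.trans ?_)
  have h2 : ∀ b ∈ (univ : Finset (ZMod l)),
      (((F - Polynomial.C (G.eval b)).roots.toFinset).image (fun a => (a, b))).card ≤ n := by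
    intro b _
    refine Finset.card_image_le.trans ?_
    refine (Multiset.toFinset_card_le _).trans ?_
    refine (Polynomial.card_roots' _).trans ?_
    rw [Polynomial.natDegree_sub_C, hFd]
  refine (Finset.sum_le_card_nsmul _ _ n h2).trans ?_
  rw [Finset.card_univ, ZMod.card, smul_eq_mul, mul_comm]

theorem dm (h : StmtCLS) : StmtDM := by
  classical
  intro f g d α β K1 K2 X1 X2 LL hd hα hβ hco hf hg hfd hgd hK1 hLL Z hZ hinj
  -- the pieces
  have hcov : Z ⊆ LL.biUnion (fun l => Z.filter (fun z => ¬ (l : ℤ) ∣ g.derivative.eval z.2)) := by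
    intro z hz
    obtain ⟨-, -, -, h0, hlt⟩ := hZ z hz
    obtain ⟨l, hl, hnd⟩ := exists_notDvd LL (fun l hl => (hLL l hl).1) _ h0 hlt
    exact Finset.mem_biUnion.mpr ⟨l, hl, Finset.mem_filter.mpr ⟨hz, hnd⟩⟩
  refine (Finset.card_le_card hcov).trans (Finset.card_biUnion_le.trans ?_)
  refine Finset.sum_le_sum fun l hl => ?_
  obtain ⟨hlp, hineq⟩ := hLL l hl
  have : Fact l.Prime := ⟨hlp⟩
  set Zl := Z.filter (fun z => ¬ (l : ℤ) ∣ g.derivative.eval z.2) with hZl
  let φ : ℤ × ℤ → ZMod l × ZMod l := fun z => ((z.1 : ZMod l), (z.2 : ZMod l))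
  have hfib : ∀ a ∈ Zl.image φ, (Zl.filter (fun z => φ z = a)).card ≤
      (d * α + K1) * (d * β + K2) := by
    intro a ha
    obtain ⟨u, hu, rfl⟩ := Finset.mem_image.mp ha
    rw [hZl, Finset.mem_filter] at hu
    apply h f g d α β K1 K2 X1 X2 l u.1 u.2 hd hα hβ hco hf hg hfd hgd hK1 hlp hu.2 hineq
    · intro z hz
      rw [Finset.mem_filter] at hz
      obtain ⟨hz1, hz2⟩ := hz
      rw [hZl, Finset.mem_filter] at hz1
      obtain ⟨e1, e2, e3, -, -⟩ := hZ z hz1.1
      have h1 : ((u.1 : ℤ) : ZMod l) = ((z.1 : ℤ) : ZMod l) := (congrArg Prod.fst hz2).symm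
      have h2 : ((u.2 : ℤ) : ZMod l) = ((z.2 : ℤ) : ZMod l) := (congrArg Prod.snd hz2).symm
      exact ⟨e1, e2, e3, (ZMod.intCast_eq_intCast_iff_dvd_sub _ _ _).mp h1,
        (ZMod.intCast_eq_intCast_iff_dvd_sub _ _ _).mp h2⟩
    · refine hinj.mono ?_
      intro z hz
      have hz' := Finset.mem_coe.mp hz
      rw [Finset.mem_filter] at hz'
      exact Finset.mem_coe.mpr (Finset.mem_filter.mp hz'.1).1
  have himg : (Zl.image φ).card ≤ d * α * l := by
    apply card_pairs f g l (d * α) hf hfd (Nat.mul_pos hd hα)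
    intro s hs
    obtain ⟨z, hz, rfl⟩ := Finset.mem_image.mp hs
    rw [hZl, Finset.mem_filter] at hz
    have e1 := (hZ z hz.1).1
    show (f.map (Int.castRingHom (ZMod l))).eval ((z.1 : ℤ) : ZMod l) =
      (g.map (Int.castRingHom (ZMod l))).eval ((z.2 : ℤ) : ZMod l)
    rw [Polynomial.eval_intCast_map, Polynomial.eval_intCast_map]
    simp only [Int.cast_id]
    rw [e1]
  have h1 := Finset.card_le_mul_card_image (f := φ) Zl ((d * α + K1) * (d * β + K2)) hfib
  refine h1.trans ?_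
  rw [mul_comm]
  exact Nat.mul_le_mul_right _ himg

end Pool.Agent.Helper12.BM
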